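import Pool.Agent.GT.StmtsF
import Pool.Agent.Helper65_GT.D_SQP

/-!
# Squad GT, F_CLS: the classes of the points over the field of rational functions
-/

set_option autoImplicit false

open Polynomial Pool.Agent.NJ

noncomputable section

namespace Pool.Agent.GT.F.H31

/-- the multiplicity of a complex number as a root -/
def mu (t : ℂ) (p : ℚ[X]) : ℕ := (p.map (algebraMap ℚ ℂ)).rootMultiplicity t

theorem mu_mul (t : ℂ) {p q : ℚ[X]} (hp : p ≠ 0) (hq : q ≠ 0) :
    mu t (p * q) = mu t p + mu t q := D.H65.mult_mul hp hq t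

theorem mu_zero {t : ℂ} {p : ℚ[X]} (h : aeval t p ≠ 0) : mu t p = 0 := by
  unfold mu
  rw [Polynomial.rootMultiplicity_eq_zero_iff]
  intro h1
  exfalso
  apply h
  rw [Polynomial.IsRoot.def, Polynomial.eval_map] at h1
  rw [Polynomial.aeval_def]
  exact h1

/-- the order of a rational function at a complex number -/
def vt (t : ℂ) (f : RatFunc ℚ) : ℤ := (mu t f.num : ℤ) - mu t f.denom

theorem inj : Function.Injective (algebraMap ℚ[X] (RatFunc ℚ)) := IsFractionRing.injective _ _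

theorem am_ne {p : ℚ[X]} (h : p ≠ 0) : algebraMap ℚ[X] (RatFunc ℚ) p ≠ 0 := fun h1 =>
  h (inj (h1.trans (map_zero _).symm))

theorem vt_div (t : ℂ) {p q : ℚ[X]} (hp : p ≠ 0) (hq : q ≠ 0) :
    vt t (algebraMap ℚ[X] (RatFunc ℚ) p / algebraMap ℚ[X] (RatFunc ℚ) q) =
      (mu t p : ℤ) - mu t q := by
  obtain ⟨f, hf⟩ : ∃ f, f = algebraMap ℚ[X] (RatFunc ℚ) p / algebraMap ℚ[X] (RatFunc ℚ) q :=
    ⟨_, rfl⟩
  have hf0 : f ≠ 0 := by
    rw [hf]
    exact div_ne_zero (am_ne hp) (am_ne hq)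
  have hn : f.num ≠ 0 := RatFunc.num_ne_zero hf0
  have hd : f.denom ≠ 0 := RatFunc.denom_ne_zero f
  have h1 := RatFunc.num_div_denom f
  rw [← hf]
  have h2 : algebraMap ℚ[X] (RatFunc ℚ) f.num / algebraMap ℚ[X] (RatFunc ℚ) f.denom =
      algebraMap ℚ[X] (RatFunc ℚ) p / algebraMap ℚ[X] (RatFunc ℚ) q := h1.trans hf
  rw [div_eq_div_iff (am_ne hd) (am_ne hq), ← map_mul, ← map_mul] at h2
  have h3 := congrArg (mu t) (inj h2)
  rw [mu_mul t hn hq, mu_mul t hp hd] at h3
  unfold vt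
  omega

theorem rep (f : RatFunc ℚ) (hf : f ≠ 0) : ∃ p q : ℚ[X], p ≠ 0 ∧ q ≠ 0 ∧
    f = algebraMap ℚ[X] (RatFunc ℚ) p / algebraMap ℚ[X] (RatFunc ℚ) q :=
  ⟨f.num, f.denom, RatFunc.num_ne_zero hf, RatFunc.denom_ne_zero f, (RatFunc.num_div_denom f).symm⟩

theorem vt_poly (t : ℂ) {p : ℚ[X]} (hp : p ≠ 0) :
    vt t (algebraMap ℚ[X] (RatFunc ℚ) p) = mu t p := by
  have h := vt_div t hp one_ne_zero
  rw [map_one, div_one] at h
  rw [h]
  have : mu t 1 = 0 := mu_zero (by simp)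
  rw [this]
  simp

theorem vt_mul (t : ℂ) {f g : RatFunc ℚ} (hf : f ≠ 0) (hg : g ≠ 0) :
    vt t (f * g) = vt t f + vt t g := by
  obtain ⟨a, b, ha, hb, rfl⟩ := rep f hf
  obtain ⟨c, d, hc, hd, rfl⟩ := rep g hg
  rw [div_mul_div_comm, ← map_mul, ← map_mul, vt_div t (mul_ne_zero ha hc) (mul_ne_zero hb hd),
    vt_div t ha hb, vt_div t hc hd, mu_mul t ha hc, mu_mul t hb hd]
  push_cast
  ring

theorem mu_neg (t : ℂ) (p : ℚ[X]) : mu t (-p) = mu t p := by
  by_cases hp : p = 0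
  · rw [hp, neg_zero]
  · have h1 : -p = C (-1 : ℚ) * p := by
      rw [C_neg, C_1]
      ring
    have h2 : mu t (C (-1 : ℚ)) = 0 := mu_zero (by
      rw [aeval_C]
      simp)
    rw [h1, mu_mul t (C_ne_zero.2 (by norm_num)) hp, h2, zero_add]

theorem vt_neg (t : ℂ) (f : RatFunc ℚ) (hf : f ≠ 0) : vt t (-f) = vt t f := by
  obtain ⟨a, b, ha, hb, rfl⟩ := rep f hf
  rw [← neg_div, ← map_neg, vt_div t (neg_ne_zero.2 ha) hb, vt_div t ha hb, mu_neg]

theorem vt_add_ge (t : ℂ) {f g : RatFunc ℚ} (hf : f ≠ 0) (hg : g ≠ 0) (hfg : f + g ≠ 0) :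
    min (vt t f) (vt t g) ≤ vt t (f + g) := by
  obtain ⟨a, b, ha, hb, rfl⟩ := rep f hf
  obtain ⟨c, d, hc, hd, rfl⟩ := rep g hg
  have e : algebraMap ℚ[X] (RatFunc ℚ) a / algebraMap ℚ[X] (RatFunc ℚ) b +
      algebraMap ℚ[X] (RatFunc ℚ) c / algebraMap ℚ[X] (RatFunc ℚ) d =
      algebraMap ℚ[X] (RatFunc ℚ) (a * d + b * c) / algebraMap ℚ[X] (RatFunc ℚ) (b * d) := by
    rw [div_add_div _ _ (am_ne hb) (am_ne hd)]
    simp only [map_add, map_mul]
  have hne : a * d + b * c ≠ 0 := by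
    intro h
    apply hfg
    rw [e, h, map_zero, zero_div]
  rw [e, vt_div t hne (mul_ne_zero hb hd), vt_div t ha hb, vt_div t hc hd, mu_mul t hb hd]
  have h1 : min (mu t (a * d)) (mu t (b * c)) ≤ mu t (a * d + b * c) := by
    unfold mu
    rw [Polynomial.map_add]
    apply Polynomial.rootMultiplicity_add
    rw [← Polynomial.map_add]
    exact D.H65.map_ne hne
  rw [mu_mul t ha hd, mu_mul t hb hc] at h1
  omega

theorem vt_add_lt (t : ℂ) {f g : RatFunc ℚ} (hf : f ≠ 0) (hg : g ≠ 0) (h : vt t f < vt t g) :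
    vt t (f + g) = vt t f := by
  have hfg : f + g ≠ 0 := by
    intro h1
    have h2 : f = -g := eq_neg_of_add_eq_zero_left h1
    rw [h2, vt_neg t g hg] at h
    exact lt_irrefl _ h
  have h1 := vt_add_ge t hf hg hfg
  have h2 := vt_add_ge t hfg (neg_ne_zero.2 hg) (by rwa [add_neg_cancel_right])
  rw [add_neg_cancel_right, vt_neg t g hg] at h2
  omega

/-- a function with odd order only at the points of `B` -/
theorem cls (sqp : D.SqpStmt) (B : Finset ℚ) (f : RatFunc ℚ) (hf : f ≠ 0)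
    (h : ∀ t : ℂ, ¬ (∃ c ∈ B, t = ((c : ℚ) : ℂ)) → Even (vt t f)) :
    ∃ (k : ℚ) (R : Finset ℚ), k ≠ 0 ∧ R ⊆ B ∧
      IsSquare (algebraMap ℚ[X] (RatFunc ℚ) (C k * ∏ c ∈ R, (X - C c)) * f) := by
  have hn : f.num ≠ 0 := RatFunc.num_ne_zero hf
  have hd : f.denom ≠ 0 := RatFunc.denom_ne_zero f
  have hodd : ∀ t : ℂ, Odd (mu t (f.num * f.denom)) → ∃ c ∈ B, t = ((c : ℚ) : ℂ) := by
    intro t ht
    by_contra h1
    have h2 := h t h1
    rw [mu_mul t hn hd] at ht
    unfold vt at h2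
    rw [Int.even_sub, Int.even_coe_nat, Int.even_coe_nat, ← Nat.even_add] at h2
    exact (Nat.not_even_iff_odd.2 ht) h2
  obtain ⟨k, s, R, hk, hs, he⟩ := sqp (f.num * f.denom) (mul_ne_zero hn hd) fun t ht => by
    obtain ⟨c, -, hc⟩ := hodd t ht
    exact ⟨c, hc⟩
  refine ⟨k, R, hk, ?_, ?_⟩
  · intro c hc
    have h1 : Odd (mu (c : ℂ) (f.num * f.denom)) := by
      rw [he]
      have hp : ∀ S : Finset ℚ, (∏ c ∈ S, (X - C c) : ℚ[X]) ≠ 0 := fun S =>
        Finset.prod_ne_zero_iff.2 fun c _ => X_sub_C_ne_zero c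
      rw [mu_mul _ (mul_ne_zero (C_ne_zero.2 hk) (pow_ne_zero 2 hs)) (hp R),
        mu_mul _ (C_ne_zero.2 hk) (pow_ne_zero 2 hs), sq, mu_mul _ hs hs,
        ← Finset.mul_prod_erase R _ hc, mu_mul _ (X_sub_C_ne_zero c) (hp _)]
      have h2 : mu (c : ℂ) (C k) = 0 := mu_zero (by
        rw [aeval_C]
        exact (_root_.map_ne_zero _).2 hk)
      have h3 : mu (c : ℂ) (∏ c' ∈ R.erase c, (X - C c')) = 0 := by
        apply mu_zero
        rw [map_prod]
        refine Finset.prod_ne_zero_iff.2 fun c' hc' => ?_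
        rw [map_sub, aeval_X, aeval_C]
        intro h4
        have h5 : (c : ℂ) = ((c' : ℚ) : ℂ) := sub_eq_zero.1 h4
        exact (Finset.mem_erase.1 hc').1 (Rat.cast_injective h5).symm
      have h4 : mu (c : ℂ) (X - C c) = 1 := by
        unfold mu
        rw [Polynomial.map_sub, Polynomial.map_X, Polynomial.map_C]
        exact Polynomial.rootMultiplicity_X_sub_C_self
      rw [h2, h3, h4]
      exact ⟨mu (c : ℂ) s, by ring⟩
    obtain ⟨c', hc', he'⟩ := hodd c h1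
    have : c = c' := Rat.cast_injective he'
    rw [this]
    exact hc'
  · refine ⟨algebraMap ℚ[X] (RatFunc ℚ) (C k * s * ∏ c ∈ R, (X - C c)) /
      algebraMap ℚ[X] (RatFunc ℚ) f.denom, ?_⟩
    have h1 : f = algebraMap ℚ[X] (RatFunc ℚ) (f.num * f.denom) /
        (algebraMap ℚ[X] (RatFunc ℚ) f.denom * algebraMap ℚ[X] (RatFunc ℚ) f.denom) := by
      have h2 := RatFunc.num_div_denom f
      rw [map_mul, mul_div_mul_right _ _ (am_ne hd), h2]
    have h3 : algebraMap ℚ[X] (RatFunc ℚ) (C k * ∏ c ∈ R, (X - C c)) * f =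
        algebraMap ℚ[X] (RatFunc ℚ) (C k * ∏ c ∈ R, (X - C c)) *
          (algebraMap ℚ[X] (RatFunc ℚ) (f.num * f.denom) /
        (algebraMap ℚ[X] (RatFunc ℚ) f.denom * algebraMap ℚ[X] (RatFunc ℚ) f.denom)) := by
      rw [← h1]
    have h4 : algebraMap ℚ[X] (RatFunc ℚ) (C k * ∏ c ∈ R, (X - C c)) *
        algebraMap ℚ[X] (RatFunc ℚ) (C k * s ^ 2 * ∏ c ∈ R, (X - C c)) =
        algebraMap ℚ[X] (RatFunc ℚ) (C k * s * ∏ c ∈ R, (X - C c)) *
          algebraMap ℚ[X] (RatFunc ℚ) (C k * s * ∏ c ∈ R, (X - C c)) := by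
      rw [← map_mul, ← map_mul]
      congr 1
      ring
    rw [h3, he, ← mul_div_assoc, h4, div_mul_div_comm]

/-- F_CLS -/
theorem f_cls (sqp : D.SqpStmt) : ClsStmt := by
  intro E e u δ x y z B hΔ hR hD hrat hB i P
  -- outside of `B`
  have hout : ∀ t : ℂ, ¬ (∃ c ∈ B, t = ((c : ℚ) : ℂ)) → aeval t (x * y * z) ≠ 0 ∧
      Even (mu t δ) := by
    intro t ht
    have h1 : ¬ (aeval t (x * y * z) = 0 ∨
        Odd ((δ.map (algebraMap ℚ ℂ)).rootMultiplicity t)) := by
      intro h2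
      obtain ⟨c, hc⟩ := hrat t h2
      apply ht
      refine ⟨c, ?_, hc⟩
      rw [hB]
      rcases h2 with h2 | h2
      · left
        rw [hc] at h2
        have h3 : (algebraMap ℚ ℂ) ((x * y * z).eval c) = 0 := by
          rw [← Polynomial.aeval_algebraMap_apply_eq_algebraMap_eval]
          exact h2
        exact (map_eq_zero _).1 h3
      · right
        rw [hc] at h2
        rw [Polynomial.eq_rootMultiplicity_map (algebraMap ℚ ℂ).injective c]
        exact h2
    refine ⟨fun h => h1 (Or.inl h), ?_⟩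
    rw [← Nat.not_odd_iff_even]
    exact fun h => h1 (Or.inr h)
  -- the order of the differences
  have hu := hD.u0
  have hdif : ∀ t : ℂ, ¬ (∃ c ∈ B, t = ((c : ℚ) : ℂ)) → ∃ d : ℤ, Even d ∧
      (∀ j, e j - e (j + 1) ≠ 0 ∧ vt t (e j - e (j + 1)) = d) ∧
      ∀ j, e j - e (j + 2) ≠ 0 ∧ vt t (e j - e (j + 2)) = d := by
    intro t ht
    obtain ⟨h1, h2⟩ := hout t ht
    have hval : ∀ w : ℚ[X], w ≠ 0 → aeval t w ≠ 0 →
        u ^ 2 * algebraMap ℚ[X] (RatFunc ℚ) (δ * w) ≠ 0 ∧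
        vt t (u ^ 2 * algebraMap ℚ[X] (RatFunc ℚ) (δ * w)) = 2 * vt t u + mu t δ := by
      intro w hw hw'
      refine ⟨mul_ne_zero (pow_ne_zero 2 hu) (am_ne (mul_ne_zero hD.d0 hw)), ?_⟩
      rw [vt_mul t (pow_ne_zero 2 hu) (am_ne (mul_ne_zero hD.d0 hw)), sq, vt_mul t hu hu,
        vt_poly t (mul_ne_zero hD.d0 hw), mu_mul t hD.d0 hw, mu_zero hw']
      push_cast
      ring
    have hx : aeval t x ≠ 0 := by
      intro h
      apply h1
      rw [map_mul, map_mul, h, zero_mul, zero_mul]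
    have hy : aeval t y ≠ 0 := by
      intro h
      apply h1
      rw [map_mul, map_mul, h, mul_zero, zero_mul]
    have hz : aeval t z ≠ 0 := by
      intro h
      apply h1
      rw [map_mul, h, mul_zero]
    obtain ⟨x1, x2⟩ := hval x hD.x0 hx
    obtain ⟨y1, y2⟩ := hval y hD.y0 hy
    obtain ⟨z1, z2⟩ := hval z hD.z0 hz
    rw [← hD.h12] at x1 x2
    rw [← hD.h23] at y1 y2
    rw [← hD.h31] at z1 z2
    have hev : Even (2 * vt t u + (mu t δ : ℤ)) := by
      obtain ⟨m, hm⟩ := h2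
      exact ⟨vt t u + m, by rw [hm]; push_cast; ring⟩
    have hn : ∀ f : RatFunc ℚ, ∀ g : RatFunc ℚ, f - g ≠ 0 ∧ vt t (f - g) = 2 * vt t u + mu t δ →
        g - f ≠ 0 ∧ vt t (g - f) = 2 * vt t u + mu t δ := by
      intro f g h
      have h3 : g - f = -(f - g) := by ring
      rw [h3]
      exact ⟨neg_ne_zero.2 h.1, by rw [vt_neg t _ h.1, h.2]⟩
    refine ⟨2 * vt t u + mu t δ, hev, ?_, ?_⟩
    · intro j
      fin_cases j
      · exact ⟨x1, x2⟩
      · exact ⟨y1, y2⟩
      · exact ⟨z1, z2⟩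
    · intro j
      fin_cases j
      · exact hn _ _ ⟨z1, z2⟩
      · exact hn _ _ ⟨x1, x2⟩
      · exact hn _ _ ⟨y1, y2⟩
  have hne1 : ∀ j, e j - e (j + 1) ≠ 0 := by
    intro j
    have hnn : ∀ w : ℚ[X], w ≠ 0 → u ^ 2 * algebraMap ℚ[X] (RatFunc ℚ) (δ * w) ≠ 0 :=
      fun w hw => mul_ne_zero (pow_ne_zero 2 hu) (am_ne (mul_ne_zero hD.d0 hw))
    fin_cases j
    · exact fun h => hnn x hD.x0 (hD.h12.symm.trans h)
    · exact fun h => hnn y hD.y0 (hD.h23.symm.trans h)
    · exact fun h => hnn z hD.z0 (hD.h31.symm.trans h)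
  have hne2 : ∀ j, e j - e (j + 2) ≠ 0 := by
    intro j h
    have h1 := hne1 (j + 2)
    have h2 : j + 2 + 1 = j := by fin_cases j <;> rfl
    rw [h2] at h1
    apply h1
    rw [← neg_sub, h, neg_zero]
  cases P with
  | zero =>
    refine ⟨1, ∅, one_ne_zero, Finset.empty_subset _, ?_⟩
    change IsSquare _
    rw [Finset.prod_empty, C_1, mul_one, map_one]
    exact IsSquare.one
  | some X₀ Y₀ hP =>
    by_cases hX : X₀ = e i
    · obtain ⟨k, R, hk, hRB, hsq⟩ := cls sqp B ((e i - e (i + 1)) * (e i - e (i + 2)))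
        (mul_ne_zero (hne1 i) (hne2 i)) (by
          intro t ht
          obtain ⟨d, hd, h1, h2⟩ := hdif t ht
          rw [vt_mul t (hne1 i) (hne2 i), (h1 i).2, (h2 i).2]
          exact ⟨d, rfl⟩)
      refine ⟨k, R, hk, hRB, ?_⟩
      exact ⟨fun h => absurd hX h, fun _ => hsq⟩
    · have hw : X₀ - e i ≠ 0 := sub_ne_zero.2 hX
      obtain ⟨k, R, hk, hRB, hsq⟩ := cls sqp B (X₀ - e i) hw (by
          intro t ht
          obtain ⟨d, hd, h1, h2⟩ := hdif t ht
          by_cases h3 : X₀ = e (i + 1)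
          · rw [h3, ← neg_sub, vt_neg t _ (hne1 i), (h1 i).2]
            exact hd
          by_cases h4 : X₀ = e (i + 2)
          · rw [h4, ← neg_sub, vt_neg t _ (hne2 i), (h2 i).2]
            exact hd
          have w1 : X₀ - e (i + 1) ≠ 0 := sub_ne_zero.2 h3
          have w2 : X₀ - e (i + 2) ≠ 0 := sub_ne_zero.2 h4
          have e1 : X₀ - e (i + 1) = (X₀ - e i) + (e i - e (i + 1)) := by ring
          have e2 : X₀ - e (i + 2) = (X₀ - e i) + (e i - e (i + 2)) := by ring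
          -- the product is a square
          have hprod : (X₀ - e i) * (X₀ - e (i + 1)) * (X₀ - e (i + 2)) =
              ((2 * Y₀ + (gen E).a₁ * X₀ + (gen E).a₃) / 2) *
                ((2 * Y₀ + (gen E).a₁ * X₀ + (gen E).a₃) / 2) := by
            have hp : (X₀ - e i) * (X₀ - e (i + 1)) * (X₀ - e (i + 2)) =
                (X₀ - e 0) * (X₀ - e 1) * (X₀ - e 2) := by
              fin_cases i
              · rfl
              · change (X₀ - e 1) * (X₀ - e 2) * (X₀ - e 0) = _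
                ring
              · change (X₀ - e 2) * (X₀ - e 0) * (X₀ - e 1) = _
                ring
            rw [hp]
            have heq := hP.1
            rw [WeierstrassCurve.Affine.equation_iff] at heq
            obtain ⟨r1, r2, r3⟩ := hR
            unfold WeierstrassCurve.b₂ at r1
            unfold WeierstrassCurve.b₄ at r2
            unfold WeierstrassCurve.b₆ at r3
            linear_combination (-1 : RatFunc ℚ) * heq - X₀ ^ 2 / 4 * r1 - X₀ / 2 * r2 - r3 / 4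
          have hY : (2 * Y₀ + (gen E).a₁ * X₀ + (gen E).a₃) / 2 ≠ 0 := by
            intro h
            rw [h, mul_zero] at hprod
            exact mul_ne_zero (mul_ne_zero hw w1) w2 hprod
          have hv := congrArg (vt t) hprod
          rw [vt_mul t (mul_ne_zero hw w1) w2, vt_mul t hw w1, vt_mul t hY hY] at hv
          rcases lt_trichotomy (vt t (X₀ - e i)) d with h5 | h5 | h5
          · have v1 : vt t (X₀ - e (i + 1)) = vt t (X₀ - e i) := by
              rw [e1]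
              exact vt_add_lt t hw (hne1 i) (by rw [(h1 i).2]; exact h5)
            have v2 : vt t (X₀ - e (i + 2)) = vt t (X₀ - e i) := by
              rw [e2]
              exact vt_add_lt t hw (hne2 i) (by rw [(h2 i).2]; exact h5)
            rw [v1, v2] at hv
            exact ⟨vt t ((2 * Y₀ + (gen E).a₁ * X₀ + (gen E).a₃) / 2) - vt t (X₀ - e i), by
              linarith⟩
          · rw [h5]
            exact hd
          · have v1 : vt t (X₀ - e (i + 1)) = d := by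
              rw [e1, add_comm, ← (h1 i).2]
              exact vt_add_lt t (hne1 i) hw (by rw [(h1 i).2]; exact h5)
            have v2 : vt t (X₀ - e (i + 2)) = d := by
              rw [e2, add_comm, ← (h2 i).2]
              exact vt_add_lt t (hne2 i) hw (by rw [(h2 i).2]; exact h5)
            rw [v1, v2] at hv
            exact ⟨vt t ((2 * Y₀ + (gen E).a₁ * X₀ + (gen E).a₃) / 2) - d, by linarith⟩)
      refine ⟨k, R, hk, hRB, ?_⟩
      exact ⟨fun _ => hsq, fun h => absurd h hX⟩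

/-- F_CLS, without hypotheses -/
theorem f_cls' : ClsStmt := f_cls D.H65.d_sqp

end Pool.Agent.GT.F.H31
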