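import Pool.Agent.GT.StmtsE

/-!
# Squad GT, E_RKN: the rank of a torsion group
-/

set_option autoImplicit false

open Polynomial Pool.Agent.NJ

noncomputable section

namespace Pool.Agent.GT.OF.H31

open Classical in
/-- E_RKN -/
theorem e_rkn : RknStmt := by
  intro F _ W hW
  unfold rk
  rw [rank_eq_zero_iff]
  intro Q
  obtain ⟨n, hn, h⟩ := hW Q
  refine ⟨(n : ℤ), ?_, ?_⟩
  · exact_mod_cast hn.ne'
  · rw [natCast_zsmul]
    exact h

end Pool.Agent.GT.OF.H31
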